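import Pool.Agent.REV.StmtsP3

/-!
# Squad REV, row PZR: the contraction argument
-/

set_option autoImplicit false

namespace Pool.Agent.REV.H23

open Set MeasureTheory Filter
open scoped Topology
open Pool.Agent.REV

theorem pzr (hPIN : PinStmt) (hPUP : PupStmt) (hPDL : PdlStmt) (hPWM : PwmStmt) : PzrStmt := by
  intro C M p U hC hp hU hE hmon
  set P : Set ℝ := {p : ℝ | 0 ≤ p ∧ MonotoneOn (fun b : ℝ => b ^ (p + 4) * U b) (Ioi 0)} with hP
  have hne : P.Nonempty := ⟨p, hp, hmon⟩
  have hbd : BddBelow P := ⟨0, fun x hx => hx.1⟩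
  have hp0 : 0 ≤ sInf P := le_csInf hne (fun x hx => hx.1)
  have hmem : sInf P ∈ P := by
    refine ⟨hp0, fun b hb b' hb' hbb => ?_⟩
    have hb0 : (0 : ℝ) < b := hb
    have hb0' : (0 : ℝ) < b' := hb'
    have hcl : IsClosed {q : ℝ | b ^ (q + 4) * U b ≤ b' ^ (q + 4) * U b'} := by
      refine isClosed_le ?_ ?_
      · exact (Continuous.rpow continuous_const (continuous_id.add continuous_const)
          (fun x => Or.inl hb0.ne')).mul continuous_const
      · exact (Continuous.rpow continuous_const (continuous_id.add continuous_const)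
          (fun x => Or.inl hb0'.ne')).mul continuous_const
    have hsub : P ⊆ {q : ℝ | b ^ (q + 4) * U b ≤ b' ^ (q + 4) * U b'} :=
      fun q hq => hq.2 hb hb' hbb
    exact (hcl.closure_subset_iff.2 hsub) (csInf_mem_closure hne hbd)
  rcases hp0.eq_or_lt with h0 | h0
  · intro b hb b' hb' hbb
    have hb0 : (0 : ℝ) < b := hb
    have h1 := hPUP C M (sInf P) U hC hp0 hU hE hmem.2 b b' hb hbb
    rw [← h0, mul_zero, Real.rpow_zero, one_mul] at h1
    exact h1
  · exfalso
    set p0 := sInf P with hp0d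
    have h1 := hPUP C M p0 U hC hp0 hU hE hmem.2
    have hq : (0 : ℝ) < 2 * p0 := by linarith
    have h2 := hPDL M (2 * p0) U hq hU (fun s s' hs hss => h1 s s' hs hss)
    set m : ℝ := 2 * p0 / 2 - 2 * p0 / (4 * (1 + 2 * p0)) with hm
    have hm1 : m < p0 := by
      have : 0 < 2 * p0 / (4 * (1 + 2 * p0)) := by positivity
      rw [hm]
      linarith
    have hm0 : 0 ≤ m := by
      have : 2 * p0 / (4 * (1 + 2 * p0)) ≤ 2 * p0 / 2 := by
        apply div_le_div_of_nonneg_left hq.le (by norm_num)
        linarith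
      rw [hm]
      linarith
    have hmP : m ∈ P := by
      refine ⟨hm0, fun b hb b' hb' hbb => ?_⟩
      have hb0 : (0 : ℝ) < b := hb
      have hb0' : (0 : ℝ) < b' := hb'
      have hk : (0 : ℝ) < 1 / b' := by positivity
      have hkk : 1 / b' ≤ 1 / b := one_div_le_one_div_of_le hb0 hbb
      have h3 := h2 (1 / b') (1 / b) hk hkk
      have h4 : wW U (1 / b) ≤ wW U (1 / b') := hPWM M U hU (by
        show (0 : ℝ) ≤ 1 / b'
        exact hk.le) (by
        show (0 : ℝ) ≤ 1 / b
        positivity) hkk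
      have hk1 : (0 : ℝ) ≤ 1 / b := by positivity
      obtain ⟨-, -, hV, hW⟩ := hPIN M U hU (1 / b) hk1
      obtain ⟨-, -, hV', hW'⟩ := hPIN M U hU (1 / b') hk.le
      have e1 : (1 / b) / (1 / b') = b' / b := by
        field_simp
      rw [e1] at h3
      have hbm : (0 : ℝ) < b ^ m := Real.rpow_pos_of_pos hb0 m
      have hbm' : (0 : ℝ) < b' ^ m := Real.rpow_pos_of_pos hb0' m
      have e2 : (b' / b) ^ m = b' ^ m / b ^ m := Real.div_rpow hb0'.le hb0.le m
      rw [e2] at h3
      have e3 : ∀ x : ℝ, 0 < x → x ^ (m + 4) * U x = C * (x ^ m * vV U (1 / x) * wW U (1 / x)) := by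
        intro x hx
        rw [hE x hx, Real.rpow_add hx]
        have : x ^ (4 : ℝ) = x ^ 4 := by
          rw [← Real.rpow_natCast]
          norm_num
        rw [this]
        field_simp
      show b ^ (m + 4) * U b ≤ b' ^ (m + 4) * U b'
      rw [e3 b hb0, e3 b' hb0']
      refine mul_le_mul_of_nonneg_left ?_ hC.le
      have h5 : b ^ m * vV U (1 / b) ≤ b' ^ m * vV U (1 / b') := by
        calc b ^ m * vV U (1 / b) ≤ b ^ m * (b' ^ m / b ^ m * vV U (1 / b')) :=
              mul_le_mul_of_nonneg_left h3 hbm.le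
          _ = b' ^ m * vV U (1 / b') := by
              field_simp
      exact mul_le_mul h5 h4 hW.le (by positivity)
    have := csInf_le hbd hmP
    linarith

end Pool.Agent.REV.H23
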