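import Pool.Agent.REV.StmtsU2

set_option autoImplicit false

/-!
# Squad REV, row NER: comparison near the pole
-/

namespace Pool.Agent.REV.H23

open Set Pool.Agent.REV

/-- a weighted average along the segment `[0, c]` -/
theorem wint (w g : ℝ → ℝ) (hw : Continuous w) (hg : Continuous g)
    (hw01 : ∀ r ∈ Icc (0 : ℝ) 1, 0 ≤ w r ∧ w r ≤ 1) (K : ℝ) (hK : 0 ≤ K)
    (h : ∀ p q : ℝ, 0 ≤ p → p ≤ q → q ≤ 1 / 2 → g p ≤ g q + K * (q ^ 2 - p ^ 2))
    (c' c : ℝ) (hc' : 0 ≤ c') (hcc : c' ≤ c) (hc : c ≤ 1 / 2) :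
    ∫ r in (0 : ℝ)..1, w r * g (r * c') ≤
      (∫ r in (0 : ℝ)..1, w r * g (r * c)) + K * (c ^ 2 - c' ^ 2) := by
  have h1 : ∫ r in (0 : ℝ)..1, w r * g (r * c') ≤
      ∫ r in (0 : ℝ)..1, (w r * g (r * c) + K * (c ^ 2 - c' ^ 2)) := by
    apply intervalIntegral.integral_mono_on zero_le_one
    · exact (hw.mul (hg.comp (continuous_id.mul continuous_const))).intervalIntegrable _ _
    · exact ((hw.mul (hg.comp (continuous_id.mul continuous_const))).add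
        continuous_const).intervalIntegrable _ _
    · intro r hr
      obtain ⟨w0, w1⟩ := hw01 r hr
      have hp : 0 ≤ r * c' := mul_nonneg hr.1 hc'
      have hpq : r * c' ≤ r * c := mul_le_mul_of_nonneg_left hcc hr.1
      have hq : r * c ≤ 1 / 2 := by
        have : r * c ≤ 1 * c := mul_le_mul_of_nonneg_right hr.2 (hc'.trans hcc)
        linarith
      have h2 := mul_le_mul_of_nonneg_left (h _ _ hp hpq hq) w0
      have hD : 0 ≤ c ^ 2 - c' ^ 2 := by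
        have := pow_le_pow_left₀ hc' hcc 2
        linarith
      have hr2 : r ^ 2 ≤ 1 := pow_le_one₀ hr.1 hr.2
      have h3 : w r * (K * ((r * c) ^ 2 - (r * c') ^ 2)) ≤ K * (c ^ 2 - c' ^ 2) := by
        have h4 : w r * r ^ 2 ≤ 1 := mul_le_one₀ w1 (sq_nonneg r) hr2
        have h5 : (w r * r ^ 2) * (K * (c ^ 2 - c' ^ 2)) ≤ 1 * (K * (c ^ 2 - c' ^ 2)) :=
          mul_le_mul_of_nonneg_right h4 (mul_nonneg hK hD)
        calc w r * (K * ((r * c) ^ 2 - (r * c') ^ 2))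
            = (w r * r ^ 2) * (K * (c ^ 2 - c' ^ 2)) := by ring
          _ ≤ _ := by rw [one_mul] at h5; exact h5
      linarith
  rw [intervalIntegral.integral_add] at h1
  · simpa using h1
  · exact (hw.mul (hg.comp (continuous_id.mul continuous_const))).intervalIntegrable _ _
  · exact continuous_const.intervalIntegrable _ _

theorem weight_cont (p : ℝ) (hp : 0 ≤ p) : Continuous fun r : ℝ => (1 - r ^ 2) ^ p :=
  (Real.continuous_rpow_const hp).comp (by fun_prop)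

theorem weight_mem (p : ℝ) (hp : 0 ≤ p) (r : ℝ) (hr : r ∈ Icc (0 : ℝ) 1) :
    0 ≤ (1 - r ^ 2) ^ p ∧ (1 - r ^ 2) ^ p ≤ 1 := by
  have hr2 : r ^ 2 ≤ 1 := pow_le_one₀ hr.1 hr.2
  exact ⟨Real.rpow_nonneg (by linarith) _,
    Real.rpow_le_one (by linarith) (by nlinarith [sq_nonneg r]) hp⟩

/-- NER. -/
theorem ner (h1 : RctStmt) (h2 : RpoStmt) : NerStmt := by
  intro n C K f hn hU hC hK hf
  have hn4 : (4 : ℝ) ≤ n := by exact_mod_cast hn
  -- bounds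
  obtain ⟨M, hM⟩ := isCompact_Icc.exists_bound_of_continuousOn hU.cont
  have hpos := h2 n f M hn hU.cont (fun t ht => ⟨hU.pos t ht, by
    have := hM t ht
    rw [Real.norm_eq_abs] at this
    exact (le_abs_self _).trans this⟩)
  obtain ⟨cA, cB⟩ := (h1 n f hn).2 hU.cont
  obtain ⟨xA, hxA, hminA⟩ := isCompact_Icc.exists_isMinOn (nonempty_Icc.2 zero_le_one) cA
  obtain ⟨xB, hxB, hminB⟩ := isCompact_Icc.exists_isMinOn (nonempty_Icc.2 zero_le_one) cB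
  obtain ⟨h, hh⟩ : ∃ h : ℝ, h = min (RA n f xA) (RB n f xB) := ⟨_, rfl⟩
  have hh0 : 0 < h := by
    rw [hh]
    exact lt_min (hpos xA hxA).1 (hpos xB hxB).2.1
  have hRA : ∀ c ∈ Icc (0 : ℝ) 1, h ≤ RA n f c := fun c hc => by
    rw [hh]
    exact (min_le_left _ _).trans (hminA hc)
  have hRB : ∀ c ∈ Icc (0 : ℝ) 1, h ≤ RB n f c := fun c hc => by
    rw [hh]
    exact (min_le_right _ _).trans (hminB hc)
  obtain ⟨K', hK'⟩ : ∃ K' : ℝ, K' = K / h := ⟨_, rfl⟩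
  have hK'0 : 0 ≤ K' := by
    rw [hK']
    positivity
  have hKh : K = K' * h := by
    rw [hK']
    field_simp
  -- the continuous extension
  have hg := H63.clf_cont hU.cont
  have hgf : ∀ p q : ℝ, 0 ≤ p → p ≤ q → q ≤ 1 / 2 → clf f p ≤ clf f q + K * (q ^ 2 - p ^ 2) := by
    intro p q hp hpq hq
    rw [H63.clf_eq ⟨hp, by linarith⟩, H63.clf_eq ⟨hp.trans hpq, by linarith⟩]
    exact hf p q hp hpq hq
  have stepA : ∀ c' c : ℝ, 0 ≤ c' → c' ≤ c → c ≤ 1 / 2 →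
      RA n f c' ≤ RA n f c * (1 + K' * (c ^ 2 - c' ^ 2)) := by
    intro c' c hc' hcc hc
    have hc1 : c ∈ Icc (0 : ℝ) 1 := ⟨hc'.trans hcc, by linarith⟩
    have hc'1 : c' ∈ Icc (0 : ℝ) 1 := ⟨hc', by linarith⟩
    have hD : 0 ≤ c ^ 2 - c' ^ 2 := by
      have := pow_le_pow_left₀ hc' hcc 2
      linarith
    have h5 := wint (fun r => (1 - r ^ 2) ^ (((n : ℝ) - 2) / 2)) (clf f)
      (weight_cont _ (by linarith)) hg (fun r hr => weight_mem _ (by linarith) r hr) K hK hgf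
      c' c hc' hcc hc
    have e1 : RA n f c' = ∫ r in (0 : ℝ)..1, (1 - r ^ 2) ^ (((n : ℝ) - 2) / 2) *
        clf f (r * c') := by
      rw [← H63.RA_clf hc'1]
      rfl
    have e2 : RA n f c = ∫ r in (0 : ℝ)..1, (1 - r ^ 2) ^ (((n : ℝ) - 2) / 2) *
        clf f (r * c) := by
      rw [← H63.RA_clf hc1]
      rfl
    rw [← e1, ← e2] at h5
    have h6 : K * (c ^ 2 - c' ^ 2) ≤ RA n f c * (K' * (c ^ 2 - c' ^ 2)) := by
      rw [hKh]
      have := mul_le_mul_of_nonneg_right (hRA c hc1) (mul_nonneg hK'0 hD)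
      linarith
    linarith
  have stepB : ∀ c' c : ℝ, 0 ≤ c' → c' ≤ c → c ≤ 1 / 2 →
      RB n f c' ≤ RB n f c * (1 + K' * (c ^ 2 - c' ^ 2)) := by
    intro c' c hc' hcc hc
    have hc1 : c ∈ Icc (0 : ℝ) 1 := ⟨hc'.trans hcc, by linarith⟩
    have hc'1 : c' ∈ Icc (0 : ℝ) 1 := ⟨hc', by linarith⟩
    have hD : 0 ≤ c ^ 2 - c' ^ 2 := by
      have := pow_le_pow_left₀ hc' hcc 2
      linarith
    have h5 := wint (fun r => r ^ 2 * (1 - r ^ 2) ^ (((n : ℝ) - 4) / 2)) (clf f)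
      ((continuous_pow 2).mul (weight_cont _ (by linarith))) hg
      (fun r hr => by
        obtain ⟨w0, w1⟩ := weight_mem (((n : ℝ) - 4) / 2) (by linarith) r hr
        exact ⟨mul_nonneg (sq_nonneg r) w0, mul_le_one₀ (pow_le_one₀ hr.1 hr.2) w0 w1⟩) K hK hgf
      c' c hc' hcc hc
    have e1 : RB n f c' = ∫ r in (0 : ℝ)..1, r ^ 2 * (1 - r ^ 2) ^ (((n : ℝ) - 4) / 2) *
        clf f (r * c') := by
      rw [← H63.RB_clf hc'1]
      rfl
    have e2 : RB n f c = ∫ r in (0 : ℝ)..1, r ^ 2 * (1 - r ^ 2) ^ (((n : ℝ) - 4) / 2) *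
        clf f (r * c) := by
      rw [← H63.RB_clf hc1]
      rfl
    rw [← e1, ← e2] at h5
    have h6 : K * (c ^ 2 - c' ^ 2) ≤ RB n f c * (K' * (c ^ 2 - c' ^ 2)) := by
      rw [hKh]
      have := mul_le_mul_of_nonneg_right (hRB c hc1) (mul_nonneg hK'0 hD)
      linarith
    linarith
  -- the constants
  obtain ⟨L, hL⟩ : ∃ L : ℝ, L = 2 * K' + K' ^ 2 + 1 := ⟨_, rfl⟩
  have hL1 : 1 ≤ L := by
    rw [hL]
    nlinarith [sq_nonneg K']
  obtain ⟨b0, hb0⟩ : ∃ b0 : ℝ, b0 = 1 / (4 * L) := ⟨_, rfl⟩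
  have hb0pos : 0 < b0 := by
    rw [hb0]
    positivity
  have hLb0 : L * b0 = 1 / 4 := by
    rw [hb0]
    field_simp
  have hb04 : b0 ≤ 1 / 4 := by nlinarith
  have hc0sq : Real.sqrt b0 ^ 2 = b0 := Real.sq_sqrt hb0pos.le
  have hc0 : Real.sqrt b0 ≤ 1 / 2 := by
    rw [show (1 / 2 : ℝ) = Real.sqrt (1 / 4) by
      rw [show (1 / 4 : ℝ) = (1 / 2) ^ 2 by norm_num, Real.sqrt_sq (by norm_num)]]
    exact Real.sqrt_le_sqrt hb04
  refine ⟨Real.sqrt b0, b0, Real.sqrt_pos.2 hb0pos, hc0, hb0pos, by linarith, ?_⟩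
  intro b hb hbb
  rw [hc0sq]
  intro s hs t ht hst
  -- `c`, `c'`
  have hs0 : 0 ≤ s := (Real.sqrt_nonneg _).trans hs.1
  have ht0 : 0 ≤ t := hs0.trans hst
  have hs2 : 1 - b0 ≤ s ^ 2 := by
    have h5 := pow_le_pow_left₀ (Real.sqrt_nonneg (1 - b0)) hs.1 2
    rwa [Real.sq_sqrt (by linarith)] at h5
  have hst2 : s ^ 2 ≤ t ^ 2 := pow_le_pow_left₀ hs0 hst 2
  have ht1 : t ^ 2 ≤ 1 := pow_le_one₀ ht0 ht.2
  obtain ⟨c, hc⟩ : ∃ c : ℝ, c = Real.sqrt (1 - s ^ 2) := ⟨_, rfl⟩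
  obtain ⟨c', hc'⟩ : ∃ c' : ℝ, c' = Real.sqrt (1 - t ^ 2) := ⟨_, rfl⟩
  have hcs : c ^ 2 = 1 - s ^ 2 := by
    rw [hc]
    exact Real.sq_sqrt (by linarith)
  have hcs' : c' ^ 2 = 1 - t ^ 2 := by
    rw [hc']
    exact Real.sq_sqrt (by linarith)
  have hc'0 : 0 ≤ c' := by
    rw [hc']
    exact Real.sqrt_nonneg _
  have hc0' : 0 ≤ c := by
    rw [hc]
    exact Real.sqrt_nonneg _
  have hcc : c' ≤ c := by
    rw [hc, hc']
    exact Real.sqrt_le_sqrt (by linarith)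
  have hch : c ≤ 1 / 2 := by
    rw [hc]
    exact (Real.sqrt_le_sqrt (by linarith)).trans hc0
  have hc1 : c ∈ Icc (0 : ℝ) 1 := ⟨hc0', by linarith⟩
  have hc'1 : c' ∈ Icc (0 : ℝ) 1 := ⟨hc'0, by linarith⟩
  obtain ⟨D, hD⟩ : ∃ D : ℝ, D = c ^ 2 - c' ^ 2 := ⟨_, rfl⟩
  have hD0 : 0 ≤ D := by
    rw [hD, hcs, hcs']
    linarith
  have hD1 : D ≤ 1 := by
    rw [hD]
    nlinarith [sq_nonneg c', hc1.1, hc1.2]
  have a1 := stepA c' c hc'0 hcc hch
  have a2 := stepB c' c hc'0 hcc hch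
  rw [← hD] at a1 a2
  obtain ⟨X, hX⟩ : ∃ X : ℝ, X = 1 + K' * D := ⟨_, rfl⟩
  rw [← hX] at a1 a2
  have hX1 : 1 ≤ X := by
    rw [hX]
    have := mul_nonneg hK'0 hD0
    linarith
  have ft : f t = C * (RB n f c' * RA n f c' ^ (n - 2)) := by
    rw [hc']
    exact hU.eq t ⟨ht0, ht.2⟩
  have fs : f s = C * (RB n f c * RA n f c ^ (n - 2)) := by
    rw [hc]
    exact hU.eq s ⟨hs0, hst.trans ht.2⟩
  have pA := (hpos c hc1).1
  have pB := (hpos c hc1).2.1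
  have pA' := (hpos c' hc'1).1
  have pB' := (hpos c' hc'1).2.1
  have hF : f t ≤ f s * X ^ (n - 1) := by
    rw [ft, fs]
    have h7 : RA n f c' ^ (n - 2) ≤ (RA n f c * X) ^ (n - 2) := pow_le_pow_left₀ pA'.le a1 _
    have h8 : RB n f c' * RA n f c' ^ (n - 2) ≤ (RB n f c * X) * (RA n f c * X) ^ (n - 2) :=
      mul_le_mul a2 h7 (pow_nonneg pA'.le _) (mul_nonneg pB.le (by linarith))
    have h9 : X ^ (n - 1) = X * X ^ (n - 2) := by
      rw [← pow_succ', show n - 2 + 1 = n - 1 by omega]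
    rw [mul_pow] at h8
    calc C * (RB n f c' * RA n f c' ^ (n - 2))
        ≤ C * (RB n f c * X * (RA n f c ^ (n - 2) * X ^ (n - 2))) :=
          mul_le_mul_of_nonneg_left h8 hC.le
      _ = C * (RB n f c * RA n f c ^ (n - 2)) * X ^ (n - 1) := by
          rw [h9]
          ring
  -- the factor
  have hfs : 0 < f s := hU.pos s ⟨hs0, hst.trans ht.2⟩
  unfold El
  have eu : 1 + (b - 1) * s ^ 2 = b + (1 - b) * c ^ 2 := by
    rw [hcs]
    ring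
  have eu' : 1 + (b - 1) * t ^ 2 = b + (1 - b) * c' ^ 2 := by
    rw [hcs']
    ring
  rw [eu, eu']
  have hb1 : b ≤ 1 / 4 := hbb.trans hb04
  have hu' : 0 < b + (1 - b) * c' ^ 2 := by
    have : 0 ≤ (1 - b) * c' ^ 2 := mul_nonneg (by linarith) (sq_nonneg _)
    linarith
  have hLu : L * (b + (1 - b) * c' ^ 2) ≤ 1 / 2 := by
    have h5 : b + (1 - b) * c' ^ 2 ≤ b0 + b0 := by
      have h6 : c' ^ 2 ≤ b0 := by
        rw [hcs']
        linarith
      have h7 : (1 - b) * c' ^ 2 ≤ 1 * c' ^ 2 :=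
        mul_le_mul_of_nonneg_right (by linarith) (sq_nonneg _)
      linarith
    have := mul_le_mul_of_nonneg_left h5 (by linarith : (0 : ℝ) ≤ L)
    linarith
  have hXL : X ^ 2 ≤ 1 + L * D := by
    rw [hX, hL]
    have h5 : D ^ 2 ≤ D := by nlinarith
    have h6 := mul_le_mul_of_nonneg_left h5 (sq_nonneg K')
    nlinarith
  have hu : (b + (1 - b) * c' ^ 2) * X ^ 2 ≤ b + (1 - b) * c ^ 2 := by
    have h5 := mul_le_mul_of_nonneg_left hXL hu'.le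
    have h6 : L * (b + (1 - b) * c' ^ 2) * D ≤ 1 / 2 * D := mul_le_mul_of_nonneg_right hLu hD0
    have h7 : b + (1 - b) * c ^ 2 = (b + (1 - b) * c' ^ 2) + (1 - b) * D := by
      rw [hD]
      ring
    have h8 : 1 / 2 * D ≤ (1 - b) * D := mul_le_mul_of_nonneg_right (by linarith) hD0
    rw [h7]
    linarith
  have hpow : (b + (1 - b) * c' ^ 2) ^ (((n : ℝ) + 1) / 2) * X ^ (n + 1) ≤
      (b + (1 - b) * c ^ 2) ^ (((n : ℝ) + 1) / 2) := by
    have h5 : X ^ (n + 1) = (X ^ 2) ^ (((n : ℝ) + 1) / 2) := by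
      rw [← Real.rpow_natCast X 2, ← Real.rpow_mul (by linarith), ← Real.rpow_natCast]
      congr 1
      push_cast
      ring
    rw [h5, ← Real.mul_rpow hu'.le (by positivity)]
    exact Real.rpow_le_rpow (by positivity) hu (by positivity)
  have hX2 : X ^ (n - 1) ≤ X ^ (n + 1) := pow_le_pow_right₀ hX1 (by omega)
  have hE : 0 ≤ (b + (1 - b) * c' ^ 2) ^ (((n : ℝ) + 1) / 2) := Real.rpow_nonneg hu'.le _
  calc (b + (1 - b) * c' ^ 2) ^ (((n : ℝ) + 1) / 2) * f t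
      ≤ (b + (1 - b) * c' ^ 2) ^ (((n : ℝ) + 1) / 2) * (f s * X ^ (n + 1)) := by
        apply mul_le_mul_of_nonneg_left _ hE
        exact hF.trans (mul_le_mul_of_nonneg_left hX2 hfs.le)
    _ = (b + (1 - b) * c' ^ 2) ^ (((n : ℝ) + 1) / 2) * X ^ (n + 1) * f s := by ring
    _ ≤ (b + (1 - b) * c ^ 2) ^ (((n : ℝ) + 1) / 2) * f s :=
        mul_le_mul_of_nonneg_right hpow hfs.le

end Pool.Agent.REV.H23
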