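import Pool.Agent.REV.StmtsG3

set_option autoImplicit false

/-!
# Squad REV, row DHA: a double integral with a sign
-/

open MeasureTheory Module Set Filter
open scoped RealInnerProductSpace Pointwise Topology ENNReal

namespace Pool.Agent.REV.H23

open Pool.Agent.REV

/-- the algebra of the integrand -/
theorem integrand (n : ℕ) (a c P : ℝ) (hn : 4 ≤ n) (hc : 0 < c) (hac : |a| < c) (hc1 : c ≤ 1) :
    (1 - a ^ 2) ^ (((n : ℝ) - 3) / 2) * (P * (Real.sqrt (1 - a ^ 2) * (2 / ((n : ℝ) - 2) *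
      ((c ^ 2 - a ^ 2) / (c ^ 2 * (1 - a ^ 2))) ^ (((n : ℝ) - 2) / 2)))) =
    2 / ((n : ℝ) - 2) * (P * (1 - a ^ 2 / c ^ 2) ^ (((n : ℝ) - 2) / 2)) := by
  have ha1 : |a| < 1 := lt_of_lt_of_le hac hc1
  have ha2 : a ^ 2 < 1 := by
    rw [← sq_abs]
    nlinarith [abs_nonneg a]
  have hac2 : a ^ 2 < c ^ 2 := by
    rw [← sq_abs]
    nlinarith [abs_nonneg a]
  have hA : 0 < 1 - a ^ 2 := by linarith
  have hC : 0 < c ^ 2 := by positivity
  have hB : 0 < 1 - a ^ 2 / c ^ 2 := by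
    rw [sub_pos, div_lt_one hC]
    exact hac2
  have h1 : (c ^ 2 - a ^ 2) / (c ^ 2 * (1 - a ^ 2)) = (1 - a ^ 2 / c ^ 2) / (1 - a ^ 2) := by
    field_simp
  rw [h1, Real.div_rpow hB.le hA.le, Real.sqrt_eq_rpow]
  have h2 : (1 - a ^ 2) ^ (((n : ℝ) - 3) / 2) * (1 - a ^ 2) ^ ((1 : ℝ) / 2) =
      (1 - a ^ 2) ^ (((n : ℝ) - 2) / 2) := by
    rw [← Real.rpow_add hA]
    congr 1
    ring
  have h3 : (1 - a ^ 2) ^ (((n : ℝ) - 2) / 2) ≠ 0 := (Real.rpow_pos_of_pos hA _).ne'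
  calc (1 - a ^ 2) ^ (((n : ℝ) - 3) / 2) * (P * ((1 - a ^ 2) ^ ((1 : ℝ) / 2) *
        (2 / ((n : ℝ) - 2) * ((1 - a ^ 2 / c ^ 2) ^ (((n : ℝ) - 2) / 2) /
          (1 - a ^ 2) ^ (((n : ℝ) - 2) / 2)))))
      = ((1 - a ^ 2) ^ (((n : ℝ) - 3) / 2) * (1 - a ^ 2) ^ ((1 : ℝ) / 2)) *
        (P * (2 / ((n : ℝ) - 2) * ((1 - a ^ 2 / c ^ 2) ^ (((n : ℝ) - 2) / 2) /
          (1 - a ^ 2) ^ (((n : ℝ) - 2) / 2)))) := by ring
    _ = 2 / ((n : ℝ) - 2) * (P * (1 - a ^ 2 / c ^ 2) ^ (((n : ℝ) - 2) / 2)) := by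
        rw [h2]
        field_simp

/-- DHA. -/
theorem dha (h1 : DhiStmt) : DhaStmt := by
  intro n t c φ hn htc hc _
  have hc1 : c ≤ 1 := by nlinarith [sq_nonneg t]
  have hn2 : (0 : ℝ) < (n : ℝ) - 2 := by
    have : (4 : ℝ) ≤ n := by exact_mod_cast hn
    linarith
  have hp : 0 < ((n : ℝ) - 2) / 2 := by positivity
  have hC : 0 < c ^ 2 := by positivity
  let H : ℝ → ℝ := fun x => if x < c then φ x * (1 - x ^ 2 / c ^ 2) ^ (((n : ℝ) - 2) / 2) else 0
  have step1 : ∀ a : ℝ, a ∈ Set.uIoc (-1 : ℝ) 1 →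
      (1 - a ^ 2) ^ (((n : ℝ) - 3) / 2) * (φ (min |a| 1) *
      (Real.sqrt (1 - a ^ 2) * ∫ b in (-1 : ℝ)..1, (1 - b ^ 2) ^ (((n : ℝ) - 4) / 2) *
        (Real.sign (t * a + c * Real.sqrt (1 - a ^ 2) * b) * b))) =
      2 / ((n : ℝ) - 2) * H |a| := by
    intro a ha
    rw [uIoc_of_le (by norm_num : (-1 : ℝ) ≤ 1)] at ha
    obtain ⟨ha1, ha2⟩ := ha
    by_cases ha3 : a = 1
    · subst ha3
      have h0 : H |(1 : ℝ)| = 0 := by
        simp only [H, abs_one]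
        rw [if_neg (not_lt.2 hc1)]
      rw [h0]
      norm_num
    have ha4 : a < 1 := lt_of_le_of_ne ha2 ha3
    have habs : |a| < 1 := abs_lt.2 ⟨ha1, ha4⟩
    have hA : 0 < 1 - a ^ 2 := by nlinarith
    have hs : 0 < Real.sqrt (1 - a ^ 2) := Real.sqrt_pos.2 hA
    have hss : Real.sqrt (1 - a ^ 2) ^ 2 = 1 - a ^ 2 := Real.sq_sqrt hA.le
    rw [h1 n (t * a) (c * Real.sqrt (1 - a ^ 2)) hn (mul_pos hc hs), min_eq_left habs.le]
    have hq : 1 - (t * a / (c * Real.sqrt (1 - a ^ 2))) ^ 2 =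
        (c ^ 2 - a ^ 2) / (c ^ 2 * (1 - a ^ 2)) := by
      rw [div_pow, mul_pow, mul_pow, hss]
      field_simp
      have ht2 : t ^ 2 = 1 - c ^ 2 := by linarith
      rw [ht2]
      ring
    rw [hq]
    by_cases hac : |a| < c
    · have hac2 : a ^ 2 < c ^ 2 := by
        rw [← sq_abs]
        nlinarith [abs_nonneg a]
      have hnn : 0 ≤ (c ^ 2 - a ^ 2) / (c ^ 2 * (1 - a ^ 2)) :=
        div_nonneg (by linarith) (mul_nonneg hC.le hA.le)
      rw [max_eq_left hnn, integrand n a c (φ |a|) hn hc hac hc1]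
      simp only [H]
      rw [if_pos hac, sq_abs]
    · have hac2 : c ^ 2 ≤ a ^ 2 := by
        rw [← sq_abs a]
        have := not_lt.1 hac
        nlinarith
      have hnp : (c ^ 2 - a ^ 2) / (c ^ 2 * (1 - a ^ 2)) ≤ 0 :=
        div_nonpos_of_nonpos_of_nonneg (by linarith) (mul_nonneg hC.le hA.le)
      rw [max_eq_right hnp, Real.zero_rpow hp.ne']
      simp only [H]
      rw [if_neg hac]
      ring
  rw [intervalIntegral.integral_congr_ae (ae_of_all _ step1), intervalIntegral.integral_const_mul]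
  -- the integral of `H |a|`
  have step2 : ∫ a in (-1 : ℝ)..1, H |a| = 2 * ∫ x in Ioi (0 : ℝ), H x := by
    rw [intervalIntegral.integral_of_le (by norm_num : (-1 : ℝ) ≤ 1),
      setIntegral_eq_integral_of_forall_compl_eq_zero, integral_comp_abs]
    intro x hx
    have hx' : ¬ (|x| < c) := by
      intro h2
      apply hx
      have h3 := abs_lt.1 (lt_of_lt_of_le h2 hc1)
      exact ⟨h3.1, h3.2.le⟩
    simp only [H]
    rw [if_neg hx']
  have step3 : ∫ x in Ioi (0 : ℝ), H x = ∫ x in (0 : ℝ)..c,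
      (1 - x ^ 2 / c ^ 2) ^ (((n : ℝ) - 2) / 2) * φ x := by
    rw [intervalIntegral.integral_of_le hc.le]
    rw [setIntegral_eq_of_subset_of_forall_diff_eq_zero (s := Ioc (0 : ℝ) c) (t := Ioi (0 : ℝ))
      measurableSet_Ioi (fun x hx => hx.1)]
    · apply setIntegral_congr_fun measurableSet_Ioc
      intro x hx
      simp only [H]
      by_cases hxc : x < c
      · rw [if_pos hxc, mul_comm]
      · have hxe : x = c := le_antisymm hx.2 (not_lt.1 hxc)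
        rw [if_neg hxc, hxe, div_self hC.ne', sub_self, Real.zero_rpow hp.ne', zero_mul]
    · intro x hx
      have hxc : ¬ (x < c) := by
        intro h2
        exact hx.2 ⟨hx.1, h2.le⟩
      simp only [H]
      rw [if_neg hxc]
  have step4 : RA n φ c = c⁻¹ * ∫ x in (0 : ℝ)..c,
      (1 - x ^ 2 / c ^ 2) ^ (((n : ℝ) - 2) / 2) * φ x := by
    have h5 := intervalIntegral.integral_comp_mul_right (a := 0) (b := 1)
      (fun x : ℝ => (1 - x ^ 2 / c ^ 2) ^ (((n : ℝ) - 2) / 2) * φ x) hc.ne'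
    rw [zero_mul, one_mul, smul_eq_mul] at h5
    rw [← h5]
    unfold RA
    apply intervalIntegral.integral_congr
    intro r _
    simp only
    rw [mul_pow, mul_div_assoc, div_self hC.ne', mul_one]
  rw [step2, step3, step4]
  field_simp
  ring

end Pool.Agent.REV.H23
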