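import Pool.Agent.REV.StmtsA2

set_option autoImplicit false

/-!
# Squad REV, row LOW: lower pinching with a uniform constant
-/

namespace Pool.Agent.REV.H23

open Set Pool.Agent.REV

/-- LOW. -/
theorem low (h1 : IntStmt) (h2 : YloStmt) (h3 : MonStmt) (h4 : LocStmt) (h5 : GluStmt) :
    LowStmt := by
  intro n i C1 C2 κ η M hn hi hin hC1 hC2 hκ hη hM
  obtain ⟨t0, ht0, ht01, hY⟩ := h2 n κ η hn hκ hη
  obtain ⟨t1, A, ht1, ht10, hA, hL⟩ := h4 n i C1 C2 M (η / 2) t0 hn hi hin hC1 hC2 hM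
    (by positivity) ht0 ht01
  refine ⟨max A (((i : ℝ) + 2) / t1 ^ 2), le_max_of_le_left hA, ?_⟩
  intro f hf hfM hanti
  have ht1le : t1 ≤ 1 := by linarith
  apply h5 n i _ t1 (TT n i C1 C2 f) hn hi hin ht1 ht1le
  · have h6 : ((i : ℝ) + 2) / t1 ^ 2 ≤ max A (((i : ℝ) + 2) / t1 ^ 2) := le_max_right _ _
    rwa [div_le_iff₀ (by positivity)] at h6
  · intro t ht
    have hc0 : 0 ≤ Real.sqrt (1 - t ^ 2) := Real.sqrt_nonneg _
    have hc1 : Real.sqrt (1 - t ^ 2) ≤ 1 := by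
      rw [Real.sqrt_le_one]
      nlinarith [sq_nonneg t]
    obtain ⟨-, h7⟩ := h1 n f hn hf.adm
    obtain ⟨-, -, h8, h9⟩ := h7 _ hc0 hc1
    unfold TT
    have h10 := pow_nonneg h8 i
    have h11 := pow_nonneg h8 (i - 1)
    have h12 := mul_nonneg h9 h11
    have h13 := mul_nonneg hC1.le h10
    have h14 := mul_nonneg hC2 h12
    linarith
  · exact hL f hf.adm hfM (hY f hf) _ (le_max_left _ _)
  · exact h3 n i C1 C2 f hn hi hC1.le hC2 hf.adm.nonneg hanti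

end Pool.Agent.REV.H23
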