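import Pool.Agent.REV.StmtsA1

set_option autoImplicit false

/-!
# Squad REV, row STB: one step, upper pinching gives lower pinching
-/

namespace Pool.Agent.REV.H23

open Set Pool.Agent.REV

theorem pow_id (q : ℝ) (hq : 0 < q) (k : ℕ) :
    (q ^ (-(1 / 2) : ℝ)) ^ (k + 1) = q ^ (-((((k + 1 : ℕ) : ℝ) + 2) / 2)) * q ∧
    q ^ (-(3 / 2) : ℝ) * (q ^ (-(1 / 2) : ℝ)) ^ k = q ^ (-((((k + 1 : ℕ) : ℝ) + 2) / 2)) := by
  constructor
  · rw [← Real.rpow_natCast, ← Real.rpow_mul hq.le]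
    nth_rewrite 3 [← Real.rpow_one q]
    rw [← Real.rpow_add hq]
    congr 1
    push_cast
    ring
  · rw [← Real.rpow_natCast, ← Real.rpow_mul hq.le, ← Real.rpow_add hq]
    congr 1
    push_cast
    ring

/-- STB. -/
theorem stb (h1 : CvaStmt) (h2 : CvbStmt) (h3 : MraStmt) (h4 : LwbStmt) : StbStmt := by
  intro n i C1 C2 e f hn hi hin hC1 hC2 he hf hU
  have hg : 0 < 1 / (1 + e) := by positivity
  have hg1 : 1 / (1 + e) ≤ 1 := by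
    rw [div_le_one (by positivity)]
    linarith
  set g : ℝ := 1 / (1 + e) with hgdef
  obtain ⟨m1, -, m3⟩ := h3 n g f hn hg hf
  obtain ⟨mA, mB⟩ := m3 hU
  have hW := h4 n i e hin he
  obtain ⟨k, rfl⟩ : ∃ k, i = k + 1 := ⟨i - 1, by omega⟩
  -- the formula
  have hform : ∀ t ∈ Icc (0 : ℝ) 1, El n (1 + (((k + 1 : ℕ) : ℝ) + 2) / ((n : ℝ) + 1) * e)
      (TT n (k + 1) C1 C2 f) t =
      C1 * (((1 + (((k + 1 : ℕ) : ℝ) + 2) / ((n : ℝ) + 1) * e * t ^ 2) ^ (((n : ℝ) + 1) / 2) *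
        (g + (1 - g) * t ^ 2) ^ (-((((k + 1 : ℕ) : ℝ) + 2) / 2))) * (g + (1 - g) * t ^ 2) *
        RA' n g f (Real.sqrt (1 - t ^ 2)) ^ (k + 1)) +
      C2 * (((1 + (((k + 1 : ℕ) : ℝ) + 2) / ((n : ℝ) + 1) * e * t ^ 2) ^ (((n : ℝ) + 1) / 2) *
        (g + (1 - g) * t ^ 2) ^ (-((((k + 1 : ℕ) : ℝ) + 2) / 2))) *
        (RB' n g f (Real.sqrt (1 - t ^ 2)) * RA' n g f (Real.sqrt (1 - t ^ 2)) ^ k)) := by
    intro t ht
    have ht2 : t ^ 2 ≤ 1 := pow_le_one₀ ht.1 ht.2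
    have hc0 : 0 ≤ Real.sqrt (1 - t ^ 2) := Real.sqrt_nonneg _
    have hc1 : Real.sqrt (1 - t ^ 2) ≤ 1 := by
      rw [Real.sqrt_le_one]
      nlinarith [sq_nonneg t]
    have hcs : Real.sqrt (1 - t ^ 2) ^ 2 = 1 - t ^ 2 := Real.sq_sqrt (by linarith)
    have hq : 1 + (g - 1) * Real.sqrt (1 - t ^ 2) ^ 2 = g + (1 - g) * t ^ 2 := by
      rw [hcs]
      ring
    have hqpos : 0 < g + (1 - g) * t ^ 2 := by
      have : 0 ≤ (1 - g) * t ^ 2 := mul_nonneg (by linarith) (sq_nonneg t)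
      linarith
    have eA := h1 n g (Real.sqrt (1 - t ^ 2)) f hn hg hc0 hc1
    have eB := h2 n g (Real.sqrt (1 - t ^ 2)) f hn hg hc0 hc1
    rw [hq] at eA eB
    obtain ⟨p1, p2⟩ := pow_id (g + (1 - g) * t ^ 2) hqpos k
    unfold El TT
    rw [eA, eB, mul_pow, mul_pow, Nat.add_sub_cancel, p1,
      show 1 + (1 + (((k + 1 : ℕ) : ℝ) + 2) / ((n : ℝ) + 1) * e - 1) * t ^ 2 =
        1 + (((k + 1 : ℕ) : ℝ) + 2) / ((n : ℝ) + 1) * e * t ^ 2 by ring, ← p2]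
    ring
  -- monotonicity
  intro s hs t ht hst
  rw [hform s hs, hform t ht]
  have hs2 : s ^ 2 ∈ Icc (0 : ℝ) 1 := ⟨sq_nonneg s, pow_le_one₀ hs.1 hs.2⟩
  have ht2 : t ^ 2 ∈ Icc (0 : ℝ) 1 := ⟨sq_nonneg t, pow_le_one₀ ht.1 ht.2⟩
  have hst2 : s ^ 2 ≤ t ^ 2 := pow_le_pow_left₀ hs.1 hst 2
  have hWst := hW hs2 ht2 hst2
  simp only at hWst
  have hc : ∀ x ∈ Icc (0 : ℝ) 1, Real.sqrt (1 - x ^ 2) ∈ Icc (0 : ℝ) 1 := by
    intro x hx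
    refine ⟨Real.sqrt_nonneg _, ?_⟩
    rw [Real.sqrt_le_one]
    nlinarith [sq_nonneg x]
  have hcc : Real.sqrt (1 - t ^ 2) ≤ Real.sqrt (1 - s ^ 2) :=
    Real.sqrt_le_sqrt (by linarith)
  have a1 := mA (hc t ht) (hc s hs) hcc
  have b1 := mB (hc t ht) (hc s hs) hcc
  obtain ⟨a0, b0⟩ := m1 _ (hc s hs)
  have q0 : ∀ x : ℝ, 0 ≤ x → 0 ≤ g + (1 - g) * x := by
    intro x hx
    have : 0 ≤ (1 - g) * x := mul_nonneg (by linarith) hx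
    linarith
  have q1 : g + (1 - g) * s ^ 2 ≤ g + (1 - g) * t ^ 2 := by
    have := mul_le_mul_of_nonneg_left hst2 (show (0 : ℝ) ≤ 1 - g by linarith)
    linarith
  have hlam : 0 ≤ (((k + 1 : ℕ) : ℝ) + 2) / ((n : ℝ) + 1) * e := by positivity
  have hW0 : 0 ≤ (1 + (((k + 1 : ℕ) : ℝ) + 2) / ((n : ℝ) + 1) * e * s ^ 2) ^ (((n : ℝ) + 1) / 2) *
        (g + (1 - g) * s ^ 2) ^ (-((((k + 1 : ℕ) : ℝ) + 2) / 2)) := by
    apply mul_nonneg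
    · apply Real.rpow_nonneg
      positivity
    · exact Real.rpow_nonneg (q0 _ hs2.1) _
  have hq0s := q0 _ hs2.1
  have hWt0 := le_trans hW0 hWst
  apply add_le_add
  · apply mul_le_mul_of_nonneg_left _ hC1
    apply mul_le_mul (mul_le_mul hWst q1 hq0s hWt0) (pow_le_pow_left₀ a0 a1 _)
      (pow_nonneg a0 _) (mul_nonneg hWt0 (q0 _ ht2.1))
  · apply mul_le_mul_of_nonneg_left _ hC2
    exact mul_le_mul hWst (mul_le_mul b1 (pow_le_pow_left₀ a0 a1 _) (pow_nonneg a0 _)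
      (le_trans b0 b1)) (mul_nonneg b0 (pow_nonneg a0 _)) hWt0

end Pool.Agent.REV.H23
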