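import Pool.Agent.REV.StmtsU2

set_option autoImplicit false

/-!
# Squad REV, row UFD: the one variable theorem for `i = n - 1`
-/

namespace Pool.Agent.REV.H23

open Set Pool.Agent.REV

/-- UFD. -/
theorem ufd (h1 : FixStmt) (h2 : FinStmt) (h3 : FcoStmt) : UfdStmt := by
  intro n D κ φ hn hD hκ hm hpos hM hRA hc
  obtain ⟨⟨C, hC, hU⟩, k, hk, hkt⟩ := h1 n D κ φ hn hD hκ hm hpos hM hRA hc
  obtain ⟨A, hA, hL⟩ := h2 n C _ hn hU hC
  have hconst := h3 n C A _ hn hU hC hA hL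
  refine ⟨k * TT n (n - 1) 0 D (TT n (n - 1) 0 D φ) 0,
    mul_pos hk (hU.pos 0 ⟨le_refl _, zero_le_one⟩), fun t ht => ?_⟩
  rw [hkt t ht, hconst t ⟨ht.1, ht.2.le⟩]

end Pool.Agent.REV.H23
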